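import Mathlib
import Pool.Agent.Helper767_G4.Four

set_option autoImplicit false

/-!
# `ζ(3)`, `ζ(3) / π³`, Euler's constant, Catalan's constant, `Γ(1/4)` and Gompertz numbers with rational parameter
# over the field `ℚ(e)`

For a rational number `0 < a ≤ 1`, an integer `l ≥ 0` and a positive rational number `x` let
`Λ_{a,l}(x) = ∫_0^∞ log (1 + s / x)^l (1 + s / x)^(a - 1) e^(-s) ds`, where the pair `(a, l) = (1, 0)` (for which
the integral is `1`) is always left out. Let `β(k) = ∑ (-1)^n / (2n+1)^k`, so `β(2)` is Catalan's constant, and write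
`A = {1/4, 1/2, 3/4, 1}`.

(1) (general parameters) Let `y_1, …, y_r` be real numbers, `L ≥ 0`, `B` a set of rational numbers `0 < a ≤ 1` and `P` a
set of positive rational numbers, such that `Γ(a)`, `ζ(k, a)` (`2 ≤ k ≤ L`) and, if `L ≥ 1`, `ψ(a) - log x` are algebraic
over `ℚ(e, y_1, …, y_r)` for all `a ∈ B`, `x ∈ P` (`ζ(k, a)` the Hurwitz zeta values, `ψ = Γ'/Γ`). For every finite set `S`
of triples `(a, l, x)`, `a ∈ B`, `0 ≤ l ≤ L`, `x ∈ P`, the field `ℚ(e, y_1, …, y_r, Λ_{a,l}(x) : (a, l, x) ∈ S)` has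
transcendence degree at least `|S| + 1`, and at most `r` of the numbers `y_1, …, y_r` and `Λ_{a,l}(x)`
(`a ∈ B`, `0 ≤ l ≤ L`, `x ∈ P`) are algebraic over `ℚ(e)`.

(2) (level four) Let `y_1, …, y_r` be real numbers such that `log 2` is algebraic over `ℚ(e, y_1, …, y_r)`, and let `P` be
a set of positive rational numbers `x` for which `γ + log x` is algebraic over `ℚ(e, y_1, …, y_r)`. For every `c ≥ 0` and
every finite set `S` of triples `(a, l, x)`, `a ∈ A`, `0 ≤ l ≤ 2c + 3`, `x ∈ P`, the field generated over `ℚ` by `e`,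
`y_1, …, y_r`, `ζ(3), ζ(3) / π³, ζ(5), ζ(7), …, ζ(2c + 3)`, `Γ(1/4)`, `β(2), β(4), …, β(2c + 2)` and `Λ_{a,l}(x)`
(`(a, l, x) ∈ S`) has transcendence degree at least `|S| + 1`.

(3) In the situation of (2) at most `r + 2c + 4` of the numbers `ζ(3), ζ(3) / π³, ζ(5), …, ζ(2c + 3)`, `Γ(1/4)`,
`β(2), β(4), …, β(2c + 2)`, `y_1, …, y_r` and `Λ_{a,l}(x)` (`a ∈ A`, `0 ≤ l ≤ 2c + 3`, `x ∈ P`) are algebraic over `ℚ(e)`.

(4) Let `G` be the multiplicative group generated by `2` and positive rational numbers `b_1, …, b_m`. For every `c ≥ 0` at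
most `m + 2c + 6` of the numbers `ζ(3), ζ(3) / π³, ζ(5), …, ζ(2c + 3)`, `Γ(1/4)`, `β(2), …, β(2c + 2)`,
`γ, log 2, log b_1, …, log b_m` and `Λ_{a,l}(x)` (`a ∈ A`, `0 ≤ l ≤ 2c + 3`, `x ∈ G`) are algebraic over `ℚ(e)`. (For
`c = 0`: at most `m + 6` of `ζ(3)`, `ζ(3) / π³`, `Γ(1/4)`, Catalan's constant, `γ`, `log 2`, the `log b_i` and the
`Λ_{a,l}(x)` with `l ≤ 3`.)

(5) In the situation of (4) at most `m + 4` of the numbers `π, Γ(1/4), γ, log 2, log b_1, …, log b_m` and `Λ_{a,l}(x)`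
(`a ∈ A`, `l ≤ 1`, `x ∈ G`) are algebraic over `ℚ(e)`, and at most `m + 5` of the numbers
`π, Γ(1/4), β(2), γ, log 2, log b_1, …, log b_m` and `Λ_{a,l}(x)` (`a ∈ A`, `l ≤ 2`, `x ∈ G`) are algebraic over `ℚ(e)`.

In all counts numbers of different names are counted separately.
-/

namespace Pool.Agent.Results.MP_e48a95_nt.GompertzLevelFour

open Set

/-- the zeta value `ζ(s) = ∑ 1 / n^s` -/
noncomputable def zeta (s : ℕ) : ℝ := ∑' n : ℕ, 1 / ((n : ℝ) + 1) ^ s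

/-- the value `β(s) = ∑ (-1)^n / (2n + 1)^s` -/
noncomputable def beta (s : ℕ) : ℝ := ∑' n : ℕ, (-1 : ℝ) ^ n / (2 * (n : ℝ) + 1) ^ s

/-- the Hurwitz zeta value `ζ(s, a) = ∑ 1 / (n + a)^s` -/
noncomputable def hurwitz (s : ℕ) (a : ℚ) : ℝ := ∑' n : ℕ, 1 / ((n : ℝ) + (a : ℝ)) ^ s

/-- `ψ(a) = Γ'(a) / Γ(a)` -/
noncomputable def digamma (a : ℚ) : ℝ := deriv Real.Gamma (a : ℝ) / Real.Gamma (a : ℝ)

/-- `Λ_{a,l}(x) = ∫_0^∞ log (1 + s / x)^l (1 + s / x)^(a - 1) e^(-s) ds` -/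
noncomputable def Lambda (a : ℚ) (l : ℕ) (x : ℚ) : ℝ :=
  ∫ s in Ioi (0 : ℝ), Real.log (1 + s / (x : ℝ)) ^ l * (1 + s / (x : ℝ)) ^ ((a : ℝ) - 1) * Real.exp (-s)

/-- `x` is algebraic over `ℚ(e, y_1, …, y_r)` -/
def AlgebraicOverEAnd {r : ℕ} (y : Fin r → ℝ) (x : ℝ) : Prop :=
  IsAlgebraic (IntermediateField.adjoin ℚ ({Real.exp 1} ∪ range y)) x

/-- `x` is algebraic over `ℚ(e)` -/
def AlgebraicOverE (x : ℝ) : Prop := IsAlgebraic (IntermediateField.adjoin ℚ {Real.exp 1}) x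

/-- the triples `(a, l, x)`, `a ∈ A`, `0 ≤ l ≤ L`, `x ∈ P`, `(a, l) ≠ (1, 0)` -/
def triples (A : Set ℚ) (L : ℕ) (P : Set ℚ) : Set (ℚ × ℕ × ℚ) :=
  {p | p.1 ∈ A ∧ p.2.1 ≤ L ∧ p.2.2 ∈ P ∧ ¬(p.1 = 1 ∧ p.2.1 = 0)}

/-- the names, among those of the numbers `k_i` (`i ∈ κ`), `y_1, …, y_r` and `Λ_{a,l}(x)`
(`a ∈ A`, `0 ≤ l ≤ L`, `x ∈ P`), of the numbers algebraic over `ℚ(e)` -/
def algebraicNames {κ : Type} (k : κ → ℝ) {r : ℕ} (y : Fin r → ℝ) (A : Set ℚ) (L : ℕ) (P : Set ℚ) :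
    Set (κ ⊕ Fin r ⊕ (ℚ × ℕ × ℚ)) :=
  {i | Sum.elim (fun j => AlgebraicOverE (k j)) (Sum.elim (fun j => AlgebraicOverE (y j))
    fun p => p ∈ triples A L P ∧ AlgebraicOverE (Lambda p.1 p.2.1 p.2.2)) i}

/-- the parameters `1/4, 1/2, 3/4, 1` -/
def quarters : Set ℚ := {1 / 4, 1 / 2, 3 / 4, 1}

/-- the numbers `ζ(3), ζ(3) / π³, ζ(5), ζ(7), …, ζ(2c + 3)`, `Γ(1/4)` and `β(2), β(4), …, β(2c + 2)` -/
noncomputable def constants (c : ℕ) : Fin (c + 2) ⊕ Unit ⊕ Fin (c + 1) → ℝ :=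
  Sum.elim (Fin.cons (zeta 3) (Fin.cons (zeta 3 / Real.pi ^ 3) fun i : Fin c => zeta (2 * i + 5)))
    (Sum.elim (fun _ => Real.Gamma (1 / 4)) fun i => beta (2 * i + 2))

/-- the multiplicative group generated by `2, b_1, …, b_m` -/
def group {m : ℕ} (b : Fin m → ℚ) : Set ℚ := {x | ∃ (n : ℤ) (k : Fin m → ℤ), x = 2 ^ n * ∏ i, b i ^ k i}

/-- the numbers `γ, log 2, log b_1, …, log b_m` -/
noncomputable def logs {m : ℕ} (b : Fin m → ℚ) : Fin (m + 2) → ℝ :=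
  Fin.cons Real.eulerMascheroniConstant (Fin.cons (Real.log 2) fun i => Real.log (b i))

open Pool.Agent.R352.E (clF mem_clF subset_clF clF_mono clF_le of_pow zt con3)
open Pool.Agent.Helper767_G4

theorem good_triples {A : Set ℚ} {L : ℕ} {P : Set ℚ} (hA : ∀ a ∈ A, 0 < a ∧ a ≤ 1) (hP : ∀ x ∈ P, 0 < x)
    {p : ℚ × ℕ × ℚ} (hp : p ∈ triples A L P) : Good p := by
  obtain ⟨h1, h2, h3, h4⟩ := hp
  exact ⟨(hA _ h1).1, (hA _ h1).2, hP _ h3, fun h => Nat.pos_of_ne_zero fun h0 => h4 ⟨h, h0⟩⟩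

section

variable {κ : Type} {r : ℕ}

/-- the condition on the family of constants -/
def Cond (k : κ → ℝ) (y : Fin r → ℝ) (A : Set ℚ) (L : ℕ) (P : Set ℚ) : Prop :=
  ∀ T : Set ℝ, {Real.exp 1} ∪ range (Sum.elim k y) ⊆ clF T → ∀ a ∈ A, Real.Gamma a ∈ clF T ∧
    (∀ j, 2 ≤ j → j ≤ L → hz j a ∈ clF T) ∧ (1 ≤ L → ∀ x ∈ P, dga a - Real.log x ∈ clF T)

theorem mem_all {k : κ → ℝ} {y : Fin r → ℝ} {A : Set ℚ} {L : ℕ} {P : Set ℚ} (hC : Cond k y A L P)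
    (hA : ∀ a ∈ A, 0 < a ∧ a ≤ 1) (hP : ∀ x ∈ P, 0 < x) {p : ℚ × ℕ × ℚ} (hp : p ∈ triples A L P) (T : Set ℝ)
    (hT : {Real.exp 1} ∪ range (Sum.elim k y) ⊆ clF T) (hR : Lambda p.1 p.2.1 p.2.2 ∈ clF T) : ZZ p ∈ clF T := by
  obtain ⟨h1, h2, h3⟩ := hC T hT p.1 hp.1
  exact ZZ_mem (good_triples hA hP hp) (hT (Or.inl rfl)) h1
    (fun h => h3 (h.trans hp.2.1) _ hp.2.2.1) (fun j hj hj' => h2 j hj (hj'.trans hp.2.1)) hR

theorem main [Fintype κ] {k : κ → ℝ} {y : Fin r → ℝ} {A : Set ℚ} {L : ℕ} {P : Set ℚ} (hC : Cond k y A L P)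
    (hA : ∀ a ∈ A, 0 < a ∧ a ≤ 1) (hP : ∀ x ∈ P, 0 < x) :
    (algebraicNames k y A L P).encard ≤ ((Fintype.card κ + r : ℕ) : ℕ∞) := by
  let Q : Type := {p : ℚ × ℕ × ℚ // p ∈ triples A L P}
  have hAI := AI_gen (P := Q) Subtype.val Subtype.val_injective (fun p => good_triples hA hP p.2)
  have h := Pool.Agent.R352.T.count_fin hAI (R := fun p : Q => Lambda p.1.1 p.1.2.1 p.1.2.2) (Sum.elim k y)
    (fun p T hT hR => mem_all hC hA hP p.2 T hT hR)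
  rw [Fintype.card_sum, Fintype.card_fin] at h
  let g : (κ ⊕ Fin r) ⊕ Q → κ ⊕ Fin r ⊕ (ℚ × ℕ × ℚ) := fun i =>
    (Equiv.sumAssoc κ (Fin r) (ℚ × ℕ × ℚ)) (Sum.map id Subtype.val i)
  have hg : Function.Injective g := (Equiv.sumAssoc κ (Fin r) (ℚ × ℕ × ℚ)).injective.comp
    (Function.Injective.sumMap Function.injective_id Subtype.val_injective)
  have hsub : algebraicNames k y A L P ⊆
      g '' {i | Sum.elim (Sum.elim k y) (fun p : Q => Lambda p.1.1 p.1.2.1 p.1.2.2) i ∈ clF {Real.exp 1}} := by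
    intro i hi
    rcases i with i | i | p
    · exact ⟨Sum.inl (Sum.inl i), mem_clF.2 hi, rfl⟩
    · exact ⟨Sum.inl (Sum.inr i), mem_clF.2 hi, rfl⟩
    · exact ⟨Sum.inr ⟨p, hi.1⟩, mem_clF.2 hi.2, rfl⟩
  calc (algebraicNames k y A L P).encard ≤ _ := encard_le_encard hsub
    _ = _ := hg.encard_image _
    _ ≤ _ := h

theorem main_trdeg [Fintype κ] {k : κ → ℝ} {y : Fin r → ℝ} {A : Set ℚ} {L : ℕ} {P : Set ℚ} (hC : Cond k y A L P)
    (hA : ∀ a ∈ A, 0 < a ∧ a ≤ 1) (hP : ∀ x ∈ P, 0 < x) (S : Finset (ℚ × ℕ × ℚ)) (hS : ∀ p ∈ S, p ∈ triples A L P) :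
    ((S.card + 1 : ℕ) : Cardinal) ≤ Algebra.trdeg ℚ (IntermediateField.adjoin ℚ
      ({Real.exp 1} ∪ range y ∪ range k ∪ (fun p : ℚ × ℕ × ℚ => Lambda p.1 p.2.1 p.2.2) '' (S : Set (ℚ × ℕ × ℚ)))) := by
  classical
  have hAI := AI_gen (P := S) Subtype.val Subtype.val_injective (fun p => good_triples hA hP (hS _ p.2))
  have h := Pool.Agent.R352.T.trdeg_fin hAI (R := fun p : S => Lambda p.1.1 p.1.2.1 p.1.2.2) (Sum.elim k y)
    (fun p T hT hR => mem_all hC hA hP (hS _ p.2) T hT hR) Finset.univ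
  have e : (fun p : S => Lambda p.1.1 p.1.2.1 p.1.2.2) '' ((Finset.univ : Finset S) : Set S) =
      (fun p : ℚ × ℕ × ℚ => Lambda p.1 p.2.1 p.2.2) '' (S : Set (ℚ × ℕ × ℚ)) := by
    ext z
    constructor
    · rintro ⟨p, -, rfl⟩
      exact ⟨p.1, p.2, rfl⟩
    · rintro ⟨p, hp, rfl⟩
      exact ⟨⟨p, hp⟩, by simp, rfl⟩
  have e2 : ({Real.exp 1} ∪ range (Sum.elim k y) : Set ℝ) = {Real.exp 1} ∪ range y ∪ range k := by
    rw [Sum.elim_range, union_comm (range k), ← union_assoc]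
  rw [e, e2] at h
  simpa using h

/-- the membership needed for a family of constants at level four -/
def Good4 (k : κ → ℝ) (L : ℕ) : Prop :=
  ∀ T : Set ℝ, range k ⊆ clF T → Real.pi ∈ clF T ∧ Real.Gamma (1 / 4) ∈ clF T ∧
    ∀ j, 2 ≤ j → j ≤ L → zt j ∈ clF T ∧ be j ∈ clF T

theorem cond4 {k : κ → ℝ} {L : ℕ} (hk : Good4 k L) (y : Fin r → ℝ) (h2 : AlgebraicOverEAnd y (Real.log 2)) {P : Set ℚ}
    (hP : ∀ x ∈ P, 0 < x ∧ AlgebraicOverEAnd y (Real.eulerMascheroniConstant + Real.log x)) :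
    Cond k y quarters L P := by
  intro T hT a ha
  obtain ⟨hpi, hG, hz'⟩ := hk T (by
    rintro _ ⟨i, rfl⟩
    exact hT (Or.inr ⟨Sum.inl i, rfl⟩))
  have hle : ({Real.exp 1} ∪ range y : Set ℝ) ⊆ clF T := by
    rintro z (hz | ⟨i, rfl⟩)
    · exact hT (Or.inl hz)
    · exact hT (Or.inr ⟨Sum.inr i, rfl⟩)
  refine ⟨Gamma_mem ha hpi hG, fun j hj hj' => hz_mem ha hj (hz' j hj hj').1 (hz' j hj hj').2, fun _ x hx => ?_⟩
  exact dga_mem ha hpi (clF_le hle (mem_clF.2 h2)) (clF_le hle (mem_clF.2 (hP x hx).2))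

end

theorem quarters_pos : ∀ a ∈ quarters, 0 < a ∧ a ≤ 1 := fun _ ha => A4_pos ha

theorem good_constants (c : ℕ) : Good4 (constants c) (2 * c + 3) := by
  intro T hT
  have h1 : zt 3 ∈ clF T := hT ⟨Sum.inl 0, rfl⟩
  have h2 : zt 3 / Real.pi ^ 3 ∈ clF T := hT ⟨Sum.inl 1, rfl⟩
  have hG : Real.Gamma (1 / 4) ∈ clF T := hT ⟨Sum.inr (Sum.inl ()), rfl⟩
  have hpi : Real.pi ∈ clF T := by
    refine of_pow (n := 3) (by norm_num) ?_
    have h3 : Real.pi ^ 3 = zt 3 / (zt 3 / Real.pi ^ 3) := by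
      have := Pool.Agent.R352.E.zt3_pos.ne'
      have := Real.pi_ne_zero
      field_simp
    rw [h3]
    exact (clF T).div_mem h1 h2
  refine ⟨hpi, hG, fun j hj hj' => ⟨Pool.Agent.R352.E.zt_all hpi (c + 1) (fun i hi => ?_) j hj (by omega), ?_⟩⟩
  · cases i with
    | zero => exact h1
    | succ i =>
      have h3 : constants c (Sum.inl (Fin.succ (Fin.succ ⟨i, by omega⟩))) ∈ clF T := hT ⟨_, rfl⟩
      simp only [constants, Sum.elim_inl, Fin.cons_succ] at h3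
      have e : 2 * (i + 1) + 3 = 2 * i + 5 := by ring
      rw [e]
      exact h3
  · rcases Nat.even_or_odd' j with ⟨i, rfl | rfl⟩
    · have h3 : constants c (Sum.inr (Sum.inr ⟨i - 1, by omega⟩)) ∈ clF T := hT ⟨_, rfl⟩
      simp only [constants, Sum.elim_inr] at h3
      have e : 2 * (i - 1) + 2 = 2 * i := by omega
      rw [e] at h3
      exact h3
    · exact be_odd_mem hpi i (by omega)

theorem good_one : Good4 (![Real.pi, Real.Gamma (1 / 4)] : Fin 2 → ℝ) 1 := by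
  intro T hT
  have hpi : Real.pi ∈ clF T := hT ⟨0, rfl⟩
  have hG : Real.Gamma (1 / 4) ∈ clF T := hT ⟨1, rfl⟩
  exact ⟨hpi, hG, fun j hj hj' => by omega⟩

theorem good_two : Good4 (![Real.pi, Real.Gamma (1 / 4), beta 2] : Fin 3 → ℝ) 2 := by
  intro T hT
  have hpi : Real.pi ∈ clF T := hT ⟨0, rfl⟩
  have hG : Real.Gamma (1 / 4) ∈ clF T := hT ⟨1, rfl⟩
  have hb : beta 2 ∈ clF T := hT ⟨2, rfl⟩
  refine ⟨hpi, hG, fun j hj hj' => ?_⟩
  obtain rfl : j = 2 := by omega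
  exact ⟨Pool.Agent.R352.E.zt_even hpi 1 one_ne_zero, hb⟩

theorem group_pos {m : ℕ} {b : Fin m → ℚ} (hb : ∀ i, 0 < b i) {x : ℚ} (hx : x ∈ group b) : 0 < x := by
  obtain ⟨n, k, rfl⟩ := hx
  exact mul_pos (zpow_pos (by norm_num) _) (Finset.prod_pos fun i _ => zpow_pos (hb i) _)

theorem group_log {m : ℕ} {b : Fin m → ℚ} (hb : ∀ i, 0 < b i) {x : ℚ} (hx : x ∈ group b) :
    AlgebraicOverEAnd (logs b) (Real.eulerMascheroniConstant + Real.log x) := by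
  obtain ⟨n, k, rfl⟩ := hx
  have h1 : Real.log ((2 ^ n * ∏ i, b i ^ k i : ℚ) : ℝ) = n * Real.log 2 + ∑ i, (k i : ℝ) * Real.log (b i) := by
    push_cast
    rw [Real.log_mul (zpow_ne_zero _ two_ne_zero) (Finset.prod_ne_zero_iff.2 fun i _ => ?_), Real.log_zpow,
      Real.log_prod]
    · congr 1
      refine Finset.sum_congr rfl fun i _ => ?_
      rw [Real.log_zpow]
    · intro i _
      have : (b i : ℝ) ≠ 0 := by exact_mod_cast (hb i).ne'
      exact zpow_ne_zero _ this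
    · have : (b i : ℝ) ≠ 0 := by exact_mod_cast (hb i).ne'
      exact zpow_ne_zero _ this
  refine mem_clF.1 ?_
  rw [h1]
  have h2 : ∀ i, logs b i ∈ clF ({Real.exp 1} ∪ range (logs b)) := fun i =>
    subset_clF _ (Or.inr ⟨i, rfl⟩)
  refine Subfield.add_mem _ (h2 0) (Subfield.add_mem _ (Subfield.mul_mem _ (intCast_mem _ _) (h2 1))
    (Subfield.sum_mem _ fun i _ => Subfield.mul_mem _ (intCast_mem _ _) ?_))
  exact h2 i.succ.succ

theorem log_two {m : ℕ} (b : Fin m → ℚ) : AlgebraicOverEAnd (logs b) (Real.log 2) := by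
  refine mem_clF.1 ?_
  exact subset_clF _ (Or.inr ⟨1, rfl⟩)

theorem result :
    -- (1)
    (∀ (L r : ℕ) (y : Fin r → ℝ) (B P : Set ℚ), (∀ a ∈ B, 0 < a ∧ a ≤ 1) → (∀ x ∈ P, 0 < x) →
      (∀ a ∈ B, AlgebraicOverEAnd y (Real.Gamma a)) →
      (∀ a ∈ B, ∀ k, 2 ≤ k → k ≤ L → AlgebraicOverEAnd y (hurwitz k a)) →
      (1 ≤ L → ∀ a ∈ B, ∀ x ∈ P, AlgebraicOverEAnd y (digamma a - Real.log x)) →
      (∀ S : Finset (ℚ × ℕ × ℚ), (∀ p ∈ S, p ∈ triples B L P) →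
        ((S.card + 1 : ℕ) : Cardinal) ≤ Algebra.trdeg ℚ (IntermediateField.adjoin ℚ
          ({Real.exp 1} ∪ range y ∪ (fun p : ℚ × ℕ × ℚ => Lambda p.1 p.2.1 p.2.2) '' (S : Set (ℚ × ℕ × ℚ))))) ∧
      (algebraicNames (fun e : Empty => e.elim) y B L P).encard ≤ (r : ℕ∞)) ∧
    -- (2) and (3)
    (∀ (c r : ℕ) (y : Fin r → ℝ) (P : Set ℚ), AlgebraicOverEAnd y (Real.log 2) →
      (∀ x ∈ P, 0 < x ∧ AlgebraicOverEAnd y (Real.eulerMascheroniConstant + Real.log x)) →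
      (∀ S : Finset (ℚ × ℕ × ℚ), (∀ p ∈ S, p ∈ triples quarters (2 * c + 3) P) →
        ((S.card + 1 : ℕ) : Cardinal) ≤ Algebra.trdeg ℚ (IntermediateField.adjoin ℚ
          ({Real.exp 1} ∪ range y ∪ range (constants c) ∪
            (fun p : ℚ × ℕ × ℚ => Lambda p.1 p.2.1 p.2.2) '' (S : Set (ℚ × ℕ × ℚ))))) ∧
      (algebraicNames (constants c) y quarters (2 * c + 3) P).encard ≤ ((r + 2 * c + 4 : ℕ) : ℕ∞)) ∧
    -- (4)
    (∀ (c m : ℕ) (b : Fin m → ℚ), (∀ i, 0 < b i) →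
      (algebraicNames (constants c) (logs b) quarters (2 * c + 3) (group b)).encard ≤ ((m + 2 * c + 6 : ℕ) : ℕ∞)) ∧
    -- (5)
    (∀ (m : ℕ) (b : Fin m → ℚ), (∀ i, 0 < b i) →
      (algebraicNames ![Real.pi, Real.Gamma (1 / 4)] (logs b) quarters 1 (group b)).encard ≤ ((m + 4 : ℕ) : ℕ∞) ∧
      (algebraicNames ![Real.pi, Real.Gamma (1 / 4), beta 2] (logs b) quarters 2 (group b)).encard ≤
        ((m + 5 : ℕ) : ℕ∞)) := by
  refine ⟨fun L r y B P hB hP h1 h2 h3 => ?_, fun c r y P h2 hP => ?_, fun c m b hb => ?_, fun m b hb => ⟨?_, ?_⟩⟩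
  · have hC : Cond (fun e : Empty => (e.elim : ℝ)) y B L P := by
      intro T hT a ha
      have hle : ({Real.exp 1} ∪ range y : Set ℝ) ⊆ clF T := by
        rintro z (hz | ⟨i, rfl⟩)
        · exact hT (Or.inl hz)
        · exact hT (Or.inr ⟨Sum.inr i, rfl⟩)
      exact ⟨clF_le hle (mem_clF.2 (h1 a ha)), fun j hj hj' => clF_le hle (mem_clF.2 (h2 a ha j hj hj')),
        fun hL x hx => clF_le hle (mem_clF.2 (h3 hL a ha x hx))⟩
    refine ⟨fun S hS => ?_, ?_⟩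
    · have h := main_trdeg hC hB hP S hS
      rwa [Set.range_eq_empty (fun e : Empty => (e.elim : ℝ)), Set.union_empty] at h
    · have h := main hC hB hP
      rwa [Fintype.card_eq_zero, Nat.zero_add] at h
  · have hC := cond4 (good_constants c) y h2 hP
    refine ⟨main_trdeg hC quarters_pos (fun x hx => (hP x hx).1), ?_⟩
    refine (main hC quarters_pos (fun x hx => (hP x hx).1)).trans_eq ?_
    simp only [Fintype.card_sum, Fintype.card_fin, Fintype.card_unit]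
    congr 1
    ring
  · have hC := cond4 (good_constants c) (logs b) (log_two b) (P := group b)
      (fun x hx => ⟨group_pos hb hx, group_log hb hx⟩)
    refine (main hC quarters_pos (fun x hx => group_pos hb hx)).trans_eq ?_
    simp only [Fintype.card_sum, Fintype.card_fin, Fintype.card_unit]
    congr 1
    ring
  · have hC := cond4 good_one (logs b) (log_two b) (P := group b)
      (fun x hx => ⟨group_pos hb hx, group_log hb hx⟩)
    refine (main hC quarters_pos (fun x hx => group_pos hb hx)).trans_eq ?_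
    rw [Fintype.card_fin]
    congr 1
    ring
  · have hC := cond4 good_two (logs b) (log_two b) (P := group b)
      (fun x hx => ⟨group_pos hb hx, group_log hb hx⟩)
    refine (main hC quarters_pos (fun x hx => group_pos hb hx)).trans_eq ?_
    rw [Fintype.card_fin]
    congr 1
    ring

end Pool.Agent.Results.MP_e48a95_nt.GompertzLevelFour
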