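import Mathlib
import Pool.Agent.R473.JC.Final

/-!
# Algebraic relations between the digits of `ζ(3)` and between the digits of `ζ(3) / π³`

`S(X) = s_1 X + ⋯ + s_L X^L`, where the `s_i` are the digits of a real number `x` in base `b` after
at most `K` of them have been changed.  The `K`-error algebraic complexity `N_b(x) = N_b(x; r, K, L)`
is the least `k` such that `X^(L+1)` divides `P(X, S(X))` for some nonzero polynomial `P(X, Y)` of
degree at most `r` in `Y` and at most `k` in `X` and some such choice of `S`.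

For every real `z ≠ 0` (for instance `z = ζ(3)`, or Euler's constant) any two of the numbers
`z π^k`, `k ∈ ℤ`, cannot both have digits of low algebraic complexity, where two different bases,
two different lengths and two different numbers of errors are allowed. In particular this holds for
`ζ(3)` and `ζ(3) / π³`.

Proof.  `π` is algebraic over `ℤ[u, v]` for `u = z π^i`, `v = z π^j`, `i ≠ j`, and `π` has a
transcendence measure; so integer polynomials of bounded degree cannot be very small at `u` and at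
`v` (`Pool.Agent.R473.JC.joint_powers`), while relations between the digits would produce such
polynomials (`Pool.Agent.R473.JC.family`).
-/

set_option autoImplicit false

namespace Pool.Agent.Results.MP_e48a95_nt.JointAlgebraicComplexity

open Finset Polynomial Module

/-- the `i`-th digit of `x` after the point in base `b` -/
noncomputable def digit (b : ℕ) (x : ℝ) (i : ℕ) : ℤ := ⌊x * (b : ℝ) ^ i⌋ % (b : ℤ)

/-- the polynomial `s_1 X + s_2 X^2 + ⋯ + s_L X^L` -/
noncomputable def seqPoly (s : ℕ → ℤ) (L : ℕ) : ℚ[X] := ∑ l ∈ Icc 1 L, C (s l : ℚ) * X ^ l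

/-- `s` is a sequence of base `b` digits, and among the places `1, …, L` at most `K` are such that
`s_l` is not the `l`-th digit of `x` -/
def Near (b : ℕ) (x : ℝ) (K L : ℕ) (s : ℕ → ℤ) : Prop :=
  (∀ l, 0 ≤ s l ∧ s l < b) ∧ {l : ℕ | 1 ≤ l ∧ l ≤ L ∧ s l ≠ digit b x l}.ncard ≤ K

/-- there is a nonzero polynomial `P(X, Y)` over `ℚ` of degree `≤ r` in `Y` and `≤ k` in `X` such
that `P(X, S(X))` is divisible by `X^(L+1)`, where `S` is the polynomial of the first `L` terms
of `s` -/
def AlgRelation (s : ℕ → ℤ) (r L k : ℕ) : Prop :=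
  ∃ P : ℚ[X][X], P ≠ 0 ∧ P.natDegree ≤ r ∧ (∀ j, (P.coeff j).natDegree ≤ k) ∧
    X ^ (L + 1) ∣ P.eval (seqPoly s L)

/-- the `K`-error algebraic complexity of degree `r` of the first `L` digits of `x` in base `b`: the
least `k` such that after the change of at most `K` of the digits there is a relation with
coefficients of degree at most `k` -/
noncomputable def complexity (b : ℕ) (x : ℝ) (r K L : ℕ) : ℕ :=
  sInf {k : ℕ | ∃ s, Near b x K L s ∧ AlgRelation s r L k}

/-- `ζ(3)` -/
noncomputable def zeta3 : ℝ := ∑' n : ℕ, 1 / ((n : ℝ) + 1) ^ 3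

/-- the joint lower bound for `u` and `v` in degree `r`, with the constant `A`, in all pairs of
bases, for all lengths and all numbers of errors -/
def Bound (A : ℝ) (r : ℕ) (u v : ℝ) : Prop :=
  ∀ b b' : ℕ, 2 ≤ b → 2 ≤ b' → ∀ K K' L L' : ℕ,
    min (L * Real.log b) (L' * Real.log b') ≤
      A ^ (K + K' + 1) * ((complexity b u r K L + 1) * Real.log b +
        (complexity b' v r K' L' + 1) * Real.log b')

/-- the case of one base, one length and one number of errors -/
lemma one_base (u v A : ℝ) (hA : 1 ≤ A) (r : ℕ) (h : Bound A r u v) (b : ℕ) (hb : 2 ≤ b)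
    (K L : ℕ) : (1 / A ^ 2) ^ (K + 1) * (L : ℝ) ≤
      complexity b u r K L + complexity b v r K L + 2 := by
  have hl : 0 < Real.log b := Real.log_pos (by exact_mod_cast (by omega : 1 < b))
  have hA0 : 0 < A := by linarith
  have h1 := h b b hb hb K K L L
  rw [min_self] at h1
  have h2 : (L : ℝ) ≤ A ^ (K + K + 1) * (complexity b u r K L + complexity b v r K L + 2) := by
    have h3 : (L : ℝ) * Real.log b ≤
        (A ^ (K + K + 1) * (complexity b u r K L + complexity b v r K L + 2)) * Real.log b := by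
      linarith
    exact le_of_mul_le_mul_right h3 hl
  have h4 : A ^ (K + K + 1) ≤ (A ^ 2) ^ (K + 1) := by
    rw [← pow_mul]
    exact pow_le_pow_right₀ hA (by omega)
  rw [div_pow, one_pow, div_mul_eq_mul_div, one_mul, div_le_iff₀ (by positivity)]
  calc (L : ℝ) ≤ A ^ (K + K + 1) * (complexity b u r K L + complexity b v r K L + 2) := h2
    _ ≤ (A ^ 2) ^ (K + 1) * (complexity b u r K L + complexity b v r K L + 2) :=
        mul_le_mul_of_nonneg_right h4 (by positivity)
    _ = _ := by ring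

lemma zeta3_pos : 0 < zeta3 := by
  have hs : Summable fun n : ℕ => 1 / ((n : ℝ) + 1) ^ 3 := by
    have h := (Real.summable_one_div_nat_pow (p := 3)).2 (by norm_num)
    have h2 := (summable_nat_add_iff 1).2 h
    refine h2.congr fun n => ?_
    push_cast
    ring
  exact hs.tsum_pos (fun n => by positivity) 0 (by norm_num)

/-- **(1)** For every real `z ≠ 0` and all `M`, `r` there is `A ≥ 1` such that for all different
integers `i`, `j` of absolute value at most `M`, all bases `b, b'`, all lengths `L, L'` and all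
numbers of errors `K, K'` and with `u = z π^i`, `v = z π^j`
`min (L log b, L' log b') ≤ A^(K+K'+1) ((N_b(u) + 1) log b + (N_b'(v) + 1) log b')`.

**(2)** For every real `z ≠ 0` and all `M`, `r` there is `c > 0` such that for every base `b`, all
`K` and all `L` at most one of the numbers `z π^k`, `|k| ≤ M`, has
`N_b(z π^k; r, K, L) + 1 < c^(K+1) L`.

**(3)** For every `r` there is `c > 0` such that for all bases `b ≥ 2`, all `K` and all `L`
`c^(K+1) L ≤ N_b(ζ(3); r, K, L) + N_b(ζ(3) / π³; r, K, L) + 2`. -/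
theorem result :
    (∀ z : ℝ, z ≠ 0 → ∀ M r : ℕ, ∃ A : ℝ, 1 ≤ A ∧ ∀ i j : ℤ, |i| ≤ M → |j| ≤ M → i ≠ j →
      Bound A r (z * Real.pi ^ i) (z * Real.pi ^ j)) ∧
    (∀ z : ℝ, z ≠ 0 → ∀ M r : ℕ, ∃ c : ℝ, 0 < c ∧ ∀ b : ℕ, 2 ≤ b → ∀ K L : ℕ,
      ∀ i j : ℤ, |i| ≤ M → |j| ≤ M →
      complexity b (z * Real.pi ^ i) r K L + 1 < c ^ (K + 1) * L →
      complexity b (z * Real.pi ^ j) r K L + 1 < c ^ (K + 1) * L → i = j) ∧
    (∀ r : ℕ, ∃ c : ℝ, 0 < c ∧ ∀ b : ℕ, 2 ≤ b → ∀ K L : ℕ,
      c ^ (K + 1) * L ≤ complexity b zeta3 r K L +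
        complexity b (zeta3 / Real.pi ^ 3) r K L + 2) := by
  have part1 : ∀ z : ℝ, z ≠ 0 → ∀ M r : ℕ, ∃ A : ℝ, 1 ≤ A ∧ ∀ i j : ℤ, |i| ≤ M → |j| ≤ M → i ≠ j →
      Bound A r (z * Real.pi ^ i) (z * Real.pi ^ j) := by
    intro z hz M r
    obtain ⟨A, hA, h⟩ := Pool.Agent.R473.JC.family
      (ι := ↥(Finset.Icc (-(M : ℤ)) M)) (fun i => z * Real.pi ^ (i : ℤ))
      (fun i j hij => Pool.Agent.R473.JC.joint_powers Real.pi
        Pool.Agent.TH456.TM.measT_pi z hz i j (fun h => hij (Subtype.ext h))) r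
    refine ⟨A, hA, fun i j hi hj hij => ?_⟩
    have hi' : i ∈ Finset.Icc (-(M : ℤ)) M := Finset.mem_Icc.2 (abs_le.1 hi)
    have hj' : j ∈ Finset.Icc (-(M : ℤ)) M := Finset.mem_Icc.2 (abs_le.1 hj)
    exact h ⟨i, hi'⟩ ⟨j, hj'⟩ (fun h => hij (congrArg Subtype.val h))
  refine ⟨part1, fun z hz M r => ?_, fun r => ?_⟩
  · obtain ⟨A, hA, h⟩ := part1 z hz M r
    have hA0 : 0 < A := by linarith
    refine ⟨1 / A ^ 2 / 2, by positivity, fun b hb K L i j hiM hjM hi hj => ?_⟩
    by_contra hij
    have h1 := one_base _ _ A hA r (h i j hiM hjM hij) b hb K L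
    have h2 : (1 / A ^ 2 / 2) ^ (K + 1) ≤ (1 / A ^ 2) ^ (K + 1) / 2 := by
      rw [div_pow (1 / A ^ 2) 2]
      refine div_le_div_of_nonneg_left (by positivity) (by norm_num) ?_
      calc (2 : ℝ) = 2 ^ 1 := by norm_num
        _ ≤ 2 ^ (K + 1) := pow_le_pow_right₀ (by norm_num) (by omega)
    have h3 : (1 / A ^ 2 / 2) ^ (K + 1) * (L : ℝ) ≤ (1 / A ^ 2) ^ (K + 1) / 2 * L :=
      mul_le_mul_of_nonneg_right h2 (Nat.cast_nonneg L)
    linarith
  · obtain ⟨A, hA, h⟩ := part1 zeta3 zeta3_pos.ne' 3 r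
    have hA0 : 0 < A := by linarith
    have h1 := h 0 (-3) (by norm_num) (by norm_num) (by norm_num)
    have e1 : zeta3 * Real.pi ^ (0 : ℤ) = zeta3 := by rw [zpow_zero, mul_one]
    have e2 : zeta3 * Real.pi ^ (-3 : ℤ) = zeta3 / Real.pi ^ 3 := by
      rw [zpow_neg, div_eq_mul_inv]
      norm_cast
    rw [e1, e2] at h1
    exact ⟨1 / A ^ 2, by positivity, fun b hb K L => one_base _ _ A hA r h1 b hb K L⟩

end Pool.Agent.Results.MP_e48a95_nt.JointAlgebraicComplexity
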