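import Mathlib
import Pool.Agent.H895.SM.Count

set_option autoImplicit false

/-!
# Joint transcendence measures for `ζ(3)`, `ζ(3) / π³`, Euler's constant and Gompertz numbers

For an integer `l ≥ 1` and a positive rational number `x` let
`δ_l(x) = ∫_0^∞ log (1 + s / x)^l e^(-s) ds` (`δ_1(1)` is Gompertz's constant).

Real numbers `v_1, …, v_n` have a *joint transcendence measure* if for every `D` there are `κ` and
`c > 0` such that `max_i |P_i(v_i)| ≥ c H^(-κ)` for all nonzero integer polynomials `P_1, …, P_n` of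
degree at most `D` with coefficients of absolute value at most `H`; for `n = 1` this is a
transcendence measure of `v_1`, which is polynomial in the height. They satisfy the *joint digit
bound* if for every `r` there is `A ≥ 1` such that for all bases `b_i`, all lengths `L_i` and all
numbers of errors `K_i`
`min_i L_i log b_i ≤ A^(K_1 + ⋯ + K_n + 1) ∑_i (N_i + 1) log b_i`, `N_i = N(b_i, v_i; r, K_i, L_i)`,
where `N(b, x; r, K, L)` is the least `k` such that after the change of at most `K` of the first `L`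
base `b` digits of `x` the polynomial `S(X) = s_1 X + ⋯ + s_L X^L` of these digits satisfies
`X^(L+1) ∣ P(X, S(X))` for some nonzero `P(X, Y)` of degree at most `r` in `Y` and `k` in `X`.
The family `v_1, …, v_n` is *good* if it and, moreover, every nonempty subfamily of it that contains
all its transcendental members has both properties. So if all but one of the members of a good
family are algebraic, then the remaining one alone has a transcendence measure and satisfies the
digit bound.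

(1) Let `z_1, …, z_c` be real numbers such that `ζ(k)` is algebraic over `ℚ(e, z_1, …, z_c)` for
`2 ≤ k ≤ J`, let `y_1, …, y_r` be real numbers and `P` a set of positive rational numbers `x` for
which `γ + log x` is algebraic over `ℚ(e, y_1, …, y_r)`. Let `w_1, …, w_n`, `n > c + r`, be numbers
with different names among `z_1, …, z_c, y_1, …, y_r` and `δ_l(x)` (`1 ≤ l ≤ J`, `x ∈ P`), and let
`v_1, …, v_n` be real numbers such that `w_i` is algebraic over `ℚ(e, v_i)` (for instance
`v_i = w_i`). Then `v_1, …, v_n` is good.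

(2) The pair `γ, δ_1(1)` is good.

(3) Any four of the seven numbers `ζ(3), ζ(3) / π³, γ, δ_1(1), δ_2(1), δ_3(1), δ_4(1)` are good.
-/

namespace Pool.Agent.Results.MP_e48a95_nt.JointMeasuresGompertz

open Finset Polynomial Set

/-- the zeta value `ζ(s) = ∑ 1 / n^s` -/
noncomputable def zeta (s : ℕ) : ℝ := ∑' n : ℕ, 1 / ((n : ℝ) + 1) ^ s

/-- `δ_l(x) = ∫_0^∞ log (1 + s / x)^l e^(-s) ds` -/
noncomputable def delta (l : ℕ) (x : ℚ) : ℝ :=
  ∫ s in Ioi (0 : ℝ), Real.log (1 + s / (x : ℝ)) ^ l * Real.exp (-s)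

/-- the `i`-th digit of `x` after the point in base `b` -/
noncomputable def digit (b : ℕ) (x : ℝ) (i : ℕ) : ℤ := ⌊x * (b : ℝ) ^ i⌋ % (b : ℤ)

/-- the polynomial `s_1 X + s_2 X^2 + ⋯ + s_L X^L` -/
noncomputable def seqPoly (s : ℕ → ℤ) (L : ℕ) : ℚ[X] := ∑ l ∈ Finset.Icc 1 L, C (s l : ℚ) * X ^ l

/-- `s` is a sequence of base `b` digits, and among the places `1, …, L` at most `K` are such that
`s_l` is not the `l`-th digit of `x` -/
def Near (b : ℕ) (x : ℝ) (K L : ℕ) (s : ℕ → ℤ) : Prop :=
  (∀ l, 0 ≤ s l ∧ s l < b) ∧ {l : ℕ | 1 ≤ l ∧ l ≤ L ∧ s l ≠ digit b x l}.ncard ≤ K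

/-- there is a nonzero polynomial `P(X, Y)` over `ℚ` of degree `≤ r` in `Y` and `≤ k` in `X` such
that `P(X, S(X))` is divisible by `X^(L+1)`, where `S` is the polynomial of the first `L` terms
of `s` -/
def AlgRelation (s : ℕ → ℤ) (r L k : ℕ) : Prop :=
  ∃ P : ℚ[X][X], P ≠ 0 ∧ P.natDegree ≤ r ∧ (∀ j, (P.coeff j).natDegree ≤ k) ∧
    X ^ (L + 1) ∣ P.eval (seqPoly s L)

/-- the `K`-error algebraic complexity of degree `r` of the first `L` digits of `x` in base `b`: the
least `k` such that after the change of at most `K` of the digits there is a relation with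
coefficients of degree at most `k` -/
noncomputable def complexity (b : ℕ) (x : ℝ) (r K L : ℕ) : ℕ :=
  sInf {k : ℕ | ∃ s, Near b x K L s ∧ AlgRelation s r L k}

/-- the joint transcendence measure -/
def JointMeasure {n : ℕ} (v : Fin n → ℝ) : Prop :=
  ∀ D : ℕ, ∃ (κ : ℕ) (c : ℝ), 0 < c ∧
    ∀ P : Fin n → ℤ[X], (∀ i, P i ≠ 0) → (∀ i, (P i).natDegree ≤ D) →
      ∀ H : ℝ, 1 ≤ H → (∀ i k, |(((P i).coeff k : ℤ) : ℝ)| ≤ H) →
        ∃ i, c / H ^ κ ≤ |aeval (v i) (P i)|

/-- the joint digit bound -/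
def DigitBound {n : ℕ} (v : Fin n → ℝ) : Prop :=
  ∀ r : ℕ, ∃ A : ℝ, 1 ≤ A ∧ ∀ b : Fin n → ℕ, (∀ i, 2 ≤ b i) → ∀ K L : Fin n → ℕ,
    ∃ i, L i * Real.log (b i) ≤
      A ^ (∑ j, K j + 1) * ∑ j, (complexity (b j) (v j) r (K j) (L j) + 1) * Real.log (b j)

/-- every nonempty subfamily `v_(σ(1)), …, v_(σ(m))` of `v_1, …, v_n` such that all other `v_i` are
algebraic has both properties -/
def Good {n : ℕ} (v : Fin n → ℝ) : Prop :=
  ∀ (m : ℕ) (σ : Fin m → Fin n), 0 < m → Function.Injective σ →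
    (∀ i, i ∉ range σ → IsAlgebraic ℚ (v i)) →
      JointMeasure (fun i => v (σ i)) ∧ DigitBound (fun i => v (σ i))

/-- `x` is algebraic over the field generated by the set `T` of real numbers -/
def AlgebraicOver (T : Set ℝ) (x : ℝ) : Prop := IsAlgebraic (IntermediateField.adjoin ℚ T) x

/-- the names of the numbers -/
inductive Name (c r J : ℕ) : Type
  /-- `z_1, …, z_c` -/
  | constant (i : Fin c) : Name c r J
  /-- `y_1, …, y_r` -/
  | given (i : Fin r) : Name c r J
  /-- `δ_l(x)`, `1 ≤ l ≤ J` -/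
  | gompertz (l : Fin J) (x : ℚ) : Name c r J

/-- the numbers -/
noncomputable def value {c r J : ℕ} (z : Fin c → ℝ) (y : Fin r → ℝ) : Name c r J → ℝ
  | .constant i => z i
  | .given i => y i
  | .gompertz l x => delta (l + 1) x

/-- the seven numbers of (3) -/
noncomputable def seven : Fin 7 → ℝ :=
  ![zeta 3, zeta 3 / Real.pi ^ 3, Real.eulerMascheroniConstant, delta 1 1, delta 2 1, delta 3 1,
    delta 4 1]

/-- the encoding of the names used in the proof -/
def enc {c r J : ℕ} : Name c r J → Fin c ⊕ Fin r ⊕ (Fin J × ℚ)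
  | .constant i => Sum.inl i
  | .given i => Sum.inr (Sum.inl i)
  | .gompertz l x => Sum.inr (Sum.inr (l, x))

theorem enc_injective {c r J : ℕ} : Function.Injective (enc (c := c) (r := r) (J := J)) := by
  intro i j h
  cases i <;> cases j <;> simp_all [enc]

theorem enc_value {c r J : ℕ} (z : Fin c → ℝ) (y : Fin r → ℝ) (i : Name c r J) :
    Pool.Agent.R352.E.gval J z y (enc i) = value z y i := by
  cases i <;> simp [enc, value, Pool.Agent.R352.E.gval, delta, Pool.Agent.R352.E.dl]

theorem both_of_joint {n : ℕ} (hn : 0 < n) (v : Fin n → ℝ) (h : Pool.Agent.H895.SM.JointN v) :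
    JointMeasure v ∧ DigitBound v := by
  have : Nonempty (Fin n) := ⟨⟨0, hn⟩⟩
  refine ⟨fun D => ?_, fun r => ?_⟩
  · obtain ⟨κ, c, hc, hj⟩ := h D
    refine ⟨κ, c, hc, fun P hP hD H hH hPH => ?_⟩
    obtain ⟨i, -, hi⟩ := Finset.exists_max_image Finset.univ (fun i => |aeval (v i) (P i)|)
      Finset.univ_nonempty
    refine ⟨i, ?_⟩
    rw [div_le_iff₀ (by positivity), mul_comm]
    exact hj P hP hD H hH hPH _ fun j => hi j (Finset.mem_univ _)
  · obtain ⟨A, hA, hj⟩ := Pool.Agent.H895.SM.complexity_N hn v h r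
    refine ⟨A, hA, fun b hb K L => ?_⟩
    obtain ⟨i, -, hi⟩ := Finset.exists_min_image Finset.univ (fun i => L i * Real.log (b i))
      Finset.univ_nonempty
    exact ⟨i, hj b hb K L _ fun j => hi j (Finset.mem_univ _)⟩

theorem good_of_joint {n : ℕ} (v : Fin n → ℝ) (h : Pool.Agent.H895.SM.JointN v) : Good v :=
  fun _ σ hm hσ ha => both_of_joint hm _ (h.omit hm σ hσ ha)

theorem general (c r J n : ℕ) (z : Fin c → ℝ) (y : Fin r → ℝ) (P : Set ℚ)
    (hz : ∀ k, 2 ≤ k → k ≤ J → AlgebraicOver ({Real.exp 1} ∪ range z) (zeta k))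
    (hP : ∀ x ∈ P, 0 < x ∧
      AlgebraicOver ({Real.exp 1} ∪ range y) (Real.eulerMascheroniConstant + Real.log x))
    (N : Fin n → Name c r J) (hN : Function.Injective N)
    (hNP : ∀ i l x, N i = .gompertz l x → x ∈ P) (hn : c + r < n)
    (v : Fin n → ℝ) (hv : ∀ i, AlgebraicOver {Real.exp 1, v i} (value z y (N i))) : Good v := by
  refine good_of_joint v ?_
  refine Pool.Agent.H895.SM.joint_count (J := J) z y ?_ (fun i => enc (N i))
    (enc_injective.comp hN) ?_ hn v ?_
  · intro l x hx T hT he h0 hd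
    refine Pool.Agent.R352.E.EE_mem hx he h0 (l + 1) (fun k hk hk' => ?_) (by exact_mod_cast hd)
    have hl := l.2
    refine Pool.Agent.R352.E.clF_le ?_ (Pool.Agent.R352.E.mem_clF.2 (hz k hk (by omega)))
    rintro w (hw | ⟨i, rfl⟩)
    · rw [mem_singleton_iff.1 hw]; exact he
    · exact hT i
  · intro i p hp
    have h1 : N i = .gompertz p.1 p.2 := enc_injective hp
    have h2 := hP p.2 (hNP i _ _ h1)
    exact ⟨h2.1, Pool.Agent.R352.E.mem_clF.2 h2.2⟩
  · intro i
    show Pool.Agent.R352.E.gval J z y (enc (N i)) ∈ _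
    rw [enc_value]
    exact Pool.Agent.R352.E.mem_clF.2 (hv i)

theorem self_algebraic (x : ℝ) : AlgebraicOver {Real.exp 1, x} x :=
  Pool.Agent.R352.E.mem_clF.1 (Pool.Agent.R352.E.subset_clF _ (Or.inr rfl))

theorem point_one {r : ℕ} (y : Fin r → ℝ) (i : Fin r) (hi : y i = Real.eulerMascheroniConstant) :
    ∀ x ∈ ({1} : Set ℚ), 0 < x ∧
      AlgebraicOver ({Real.exp 1} ∪ range y) (Real.eulerMascheroniConstant + Real.log x) := by
  intro x hx
  rw [mem_singleton_iff] at hx
  subst hx
  refine ⟨one_pos, ?_⟩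
  rw [Rat.cast_one, Real.log_one, add_zero, ← hi]
  exact Pool.Agent.R352.E.mem_clF.1 (Pool.Agent.R352.E.subset_clF _ (Or.inr ⟨i, rfl⟩))

theorem zeta_small (k : ℕ) (h2 : 2 ≤ k) (h4 : k ≤ 4) :
    AlgebraicOver ({Real.exp 1} ∪ range ![zeta 3, zeta 3 / Real.pi ^ 3]) (zeta k) := by
  refine Pool.Agent.R352.E.mem_clF.1 ?_
  have h3 : zeta 3 ∈ Pool.Agent.R352.E.clF ({Real.exp 1} ∪ range ![zeta 3, zeta 3 / Real.pi ^ 3]) :=
    Pool.Agent.R352.E.subset_clF _ (Or.inr ⟨0, rfl⟩)
  have h3' : zeta 3 / Real.pi ^ 3 ∈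
      Pool.Agent.R352.E.clF ({Real.exp 1} ∪ range ![zeta 3, zeta 3 / Real.pi ^ 3]) :=
    Pool.Agent.R352.E.subset_clF _ (Or.inr ⟨1, rfl⟩)
  have hpi : Real.pi ∈
      Pool.Agent.R352.E.clF ({Real.exp 1} ∪ range ![zeta 3, zeta 3 / Real.pi ^ 3]) := by
    refine Pool.Agent.R352.E.of_pow (n := 3) (by norm_num) ?_
    have e : Real.pi ^ 3 = zeta 3 / (zeta 3 / Real.pi ^ 3) := by
      have h0 : zeta 3 ≠ 0 := Pool.Agent.R352.E.zt3_pos.ne'
      have := Real.pi_ne_zero
      field_simp
    have h5 := Subfield.div_mem _ h3 h3'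
    convert h5 using 1
  refine Pool.Agent.R352.E.zt_all hpi 1 (fun i hi => ?_) k h2 (by omega)
  have : i = 0 := by omega
  subst this
  exact h3

theorem result :
    -- (1)
    (∀ (c r J n : ℕ) (z : Fin c → ℝ) (y : Fin r → ℝ) (P : Set ℚ),
      (∀ k, 2 ≤ k → k ≤ J → AlgebraicOver ({Real.exp 1} ∪ range z) (zeta k)) →
      (∀ x ∈ P, 0 < x ∧
        AlgebraicOver ({Real.exp 1} ∪ range y) (Real.eulerMascheroniConstant + Real.log x)) →
      ∀ N : Fin n → Name c r J, Function.Injective N →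
        (∀ i l x, N i = .gompertz l x → x ∈ P) → c + r < n →
        ∀ v : Fin n → ℝ, (∀ i, AlgebraicOver {Real.exp 1, v i} (value z y (N i))) → Good v) ∧
    -- (2)
    Good ![Real.eulerMascheroniConstant, delta 1 1] ∧
    -- (3)
    (∀ N : Fin 4 → Fin 7, Function.Injective N → Good (fun i => seven (N i))) := by
  refine ⟨general, ?_, fun N hN => ?_⟩
  · refine general 0 1 1 2 Fin.elim0 ![Real.eulerMascheroniConstant] {1}
      (fun k h1 h2 => absurd (h1.trans h2) (by norm_num)) (point_one _ 0 rfl)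
      ![.given 0, .gompertz 0 1] ?_ ?_ (by norm_num) _ ?_
    · intro i j h
      fin_cases i <;> fin_cases j <;> simp_all
    · intro i l x h
      fin_cases i <;> simp_all
    · intro i
      fin_cases i
      · exact self_algebraic _
      · exact self_algebraic _
  · let M : Fin 7 → Name 2 1 4 :=
      ![.constant 0, .constant 1, .given 0, .gompertz 0 1, .gompertz 1 1, .gompertz 2 1,
        .gompertz 3 1]
    have hM : Function.Injective M := by
      intro i j h
      fin_cases i <;> fin_cases j <;> simp_all [M]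
    have hMP : ∀ i l x, M i = .gompertz l x → x ∈ ({1} : Set ℚ) := by
      intro i l x h
      fin_cases i <;> simp_all [M]
    have hMv : ∀ i, value ![zeta 3, zeta 3 / Real.pi ^ 3] ![Real.eulerMascheroniConstant] (M i) =
        seven i := by
      intro i
      fin_cases i <;> rfl
    refine general 2 1 4 4 ![zeta 3, zeta 3 / Real.pi ^ 3] ![Real.eulerMascheroniConstant] {1}
      zeta_small (point_one _ 0 rfl) (fun i => M (N i)) (hM.comp hN)
      (fun i l x h => hMP _ l x h) (by norm_num) _ (fun i => ?_)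
    rw [hMv]
    exact self_algebraic _

end Pool.Agent.Results.MP_e48a95_nt.JointMeasuresGompertz
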